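import Pool.Agent.D0H43.JQ.Fin
import Pool.Agent.D0H10.Q5.FinS
import Pool.Agent.Y948.CQ.C2

/-!
# Project JQ: the joint law of the `2^∞`-Selmer groups of the twists by `D` and `- D`
-/

set_option autoImplicit false

open NumberField WeierstrassCurve Filter
open scoped Topology Classical

namespace Pool.Agent.D0H43.JQ

open H385 (ZI RQ im1 nrm)
open Pool.Agent.Y699 (SB mem_SB PS pi1)
open Pool.Agent.D0H10.Q4
open Pool.Agent.D0H10.Q5 (Dn Ker facts_s)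
open Pool.Agent.D0H10.Q5.Inf (killed SelInf E1)
open Pool.Agent.D0H43.Q4.P

/-- the two kernels of `1 + i` have the same number of elements -/
theorem killed_eq (K : Type) [Field K] [NumberField K] [IsCyclotomicExtension {4} ℚ K] (i : K)
    (hi : i ^ 2 = -1) (D : 𝓞 K) (hD : Squarefree D ∧ OddI D) :
    (killed i (D : K)).ncard = (killed i ((-D : 𝓞 K) : K)).ncard := by
  obtain ⟨e, he⟩ := Rng.exists_e K
  obtain ⟨D, rfl⟩ := e.surjective D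
  obtain ⟨p, hp, Δ, hΔ, rfl⟩ := (oneK e D).1 hD
  have h13 : ∀ p ∈ S1, p ∈ S3 ∧ p.1 < 4 ∧ ((p.1 + 2) % 4, p.2) ∈ S3 := by decide
  obtain ⟨h3, h4, h3'⟩ := h13 p hp
  rw [← map_neg, neg_cl h4]
  obtain ⟨⟨⟨r, hr, -, -⟩, -⟩, h5⟩ := facts_s e hi p h3 Δ hΔ
  obtain ⟨-, h6⟩ := facts_s e hi _ h3' Δ hΔ
  rw [hr]
  exact ((h6 r).2 ((h5 r).1 hr)).symm

lemma fam_ne {K : Type} [Field K] [NumberField K] {D : 𝓞 K} (h : Squarefree D) : D ≠ 0 := h.ne_zero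

theorem c2_lt : ∏' i : ℕ, (1 - (1 / 2 : ℝ) ^ (2 * i + 1)) < 0.4195 := Pool.Agent.Y948.CQ.t_C2.2.2.2.2

end Pool.Agent.D0H43.JQ
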