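import Pool.Agent.D0H43.JQ.Pen
import Pool.Agent.D0H43.JQ.SelT
import Pool.Agent.D0H10.Q4.Num

/-!
# Project JQ: the joint law for the twists by `D` and `- D` over the ring of integers of `ℚ(i)`
-/

set_option autoImplicit false

open NumberField WeierstrassCurve Filter
open scoped Topology Classical

namespace Pool.Agent.D0H43.JQ

open H385 (ZI RQ im1 nrm)
open Pool.Agent.Y699 (SB mem_SB PS pi1)
open Pool.Agent.D0H10.Q4
open Pool.Agent.D0H10.Q5 (Dn)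
open Pool.Agent.D0H43.Q4 (dO)
open Pool.Agent.D0H43.Q4.P

lemma neg_cl {a b : ℕ} (ha : a < 4) (Δ : ZI) : -(cl a b Δ) = cl ((a + 2) % 4) b Δ := by
  have h2 : im1 ^ 2 = -1 := by decide
  unfold cl
  interval_cases a
  · show -(im1 ^ 0 * _) = im1 ^ 2 * _
    rw [h2, pow_zero]; ring
  · show -(im1 ^ 1 * _) = im1 ^ 3 * _
    have h3 : im1 ^ 3 = -im1 := by decide
    rw [h3, pow_one]; ring
  · show -(im1 ^ 2 * _) = im1 ^ 0 * _
    rw [h2, pow_zero]; ring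
  · show -(im1 ^ 3 * _) = im1 ^ 1 * _
    have h3 : im1 ^ 3 = -im1 := by decide
    rw [h3, pow_one]; ring

lemma dO_four (a : ℕ) (Δ : ZI) : dO (a + 4) Δ = dO a Δ := by
  have h1 := pencil (a + 2) Δ
  have h2 := pencil a Δ
  have h3 : dM (a + 2) Δ = dM a Δ := by
    unfold dM
    rw [hO_add]
  rw [h3, h2] at h1
  have key : ∀ x y : ZMod 2, x + y + y = x := by decide
  rw [key] at h1
  exact h1

lemma dO_mod {a : ℕ} (ha : a < 4) (Δ : ZI) : dO ((a + 2) % 4) Δ = dO (a + 2) Δ := by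
  interval_cases a
  · rfl
  · rfl
  · exact (dO_four 0 Δ).symm
  · exact (dO_four 1 Δ).symm

section

variable {K : Type} [Field K] [NumberField K]

/-- both twists -/
def Both (D : 𝓞 K) : Prop := FinT D ∧ FinT (-D)

/-- exactly one of the two twists -/
def One (D : 𝓞 K) : Prop := ¬ (FinT D ↔ FinT (-D))

theorem finT_cl (e : ZI ≃+* 𝓞 K) {p : ℕ × ℕ} (hp : p ∈ S4) {Δ : ZI} (hΔ : PS Δ) :
    FinT (e (cl p.1 p.2 Δ)) ↔ crit p Δ := (all6.facts K e p ((by decide : S4 ⊆ S6) hp) Δ hΔ).2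

lemma p_neg {p : ℕ × ℕ} (hp : p ∈ S4) : ((p.1 + 2) % 4, p.2) ∈ S4 := by
  revert hp
  revert p
  decide

theorem finT_neg (e : ZI ≃+* 𝓞 K) {p : ℕ × ℕ} (hp : p ∈ S4) {Δ : ZI} (hΔ : PS Δ) :
    FinT (-(e (cl p.1 p.2 Δ))) ↔ crit ((p.1 + 2) % 4, p.2) Δ := by
  have h4 : p.1 < 4 := by
    revert hp
    revert p
    decide
  rw [← map_neg, neg_cl h4]
  exact finT_cl e (p_neg hp) hΔ

/-- for the odd `D` of the family the two conditions are the same -/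
theorem odd_iff (e : ZI ≃+* 𝓞 K) {p : ℕ × ℕ} (hp : p ∈ S1) {Δ : ZI} (hΔ : PS Δ) :
    FinT (e (cl p.1 p.2 Δ)) ↔ FinT (-(e (cl p.1 p.2 Δ))) := by
  have h4 : p ∈ S4 := (by decide : S1 ⊆ S4) hp
  have h0 : p.2 = 0 := by
    revert hp
    revert p
    decide
  rw [finT_cl e h4 hΔ, finT_neg e h4 hΔ]
  unfold crit
  simp only [h0]
  rw [if_neg (by norm_num), if_neg (by norm_num)]

/-- the criterion for both -/
def cB (p : ℕ × ℕ) (Δ : ZI) : Prop := crit p Δ ∧ crit ((p.1 + 2) % 4, p.2) Δ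

/-- the criterion for exactly one -/
def cU (p : ℕ × ℕ) (Δ : ZI) : Prop := ¬ (crit p Δ ↔ crit ((p.1 + 2) % 4, p.2) Δ)

/-- the limits for both -/
noncomputable def xB (p : ℕ × ℕ) : ℝ := if p.2 = 1 then cc2 / 2 else cc2

/-- the limits for exactly one -/
noncomputable def xU (p : ℕ × ℕ) : ℝ := if p.2 = 1 then cc2 else 0

theorem den_crit {p : ℕ × ℕ} (hp : p ∈ S4) : Dn (crit p) cc2 :=
  (dn_iff _ _ _).2 (all6.dens p ((by decide : S4 ⊆ S6) hp))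

theorem den_cU {p : ℕ × ℕ} (hp : p ∈ S4) : Dn (cU p) (xU p) := by
  have h4 : p.1 < 4 := by
    revert hp
    revert p
    decide
  by_cases hb : p.2 = 1
  · have h1 := den_one p.1
    have e : xU p = cc2 := if_pos hb
    rw [e]
    refine Dn.congr' (fun Δ _ => ?_) h1
    unfold cU crit
    simp only [if_pos hb]
    rw [dO_mod h4]
  · have e : xU p = 0 := if_neg hb
    rw [e, dn_ct]
    have h1 : ∀ X, ct (cU p) X = 0 := by
      intro X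
      unfold ct
      rw [Finset.card_eq_zero, Finset.filter_eq_empty_iff]
      intro Δ _ h
      apply h
      unfold crit
      simp only [if_neg hb]
    simp_rw [h1]
    simp

theorem den_cB {p : ℕ × ℕ} (hp : p ∈ S4) : Dn (cB p) (xB p) := by
  have h := dn_both (den_crit hp) (den_crit (p_neg hp)) (den_cU hp)
  have e : (cc2 + cc2 - xU p) / 2 = xB p := by
    unfold xU xB
    split_ifs <;> ring
  rw [e] at h
  exact h

lemma s4_lt : ∀ p ∈ S4, p.1 < 4 := by decide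

/-- the general form of the limits -/
theorem lim_gen (e : ZI ≃+* 𝓞 K) (he : ∀ z, Algebra.norm ℤ (e z) = z.norm)
    {S S' : Finset (ℕ × ℕ)} (hS : S ⊆ S4) (hS' : S'.Nonempty) (h4' : ∀ p ∈ S', p.1 < 4)
    (Q Q' : 𝓞 K → Prop) (hQ : ∀ D, Q (e D) ↔ InS S D) (hQ' : ∀ D, Q' (e D) ↔ InS S' D)
    (T : 𝓞 K → Prop) (P : ℕ × ℕ → ZI → Prop) (x : ℕ × ℕ → ℝ)
    (hT : ∀ p ∈ S4, ∀ Δ, PS Δ → (T (e (cl p.1 p.2 Δ)) ↔ P p Δ))
    (hP : ∀ p ∈ S4, Dn (P p) (x p)) :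
    Tendsto (fun X : ℕ => ({D : 𝓞 K | Algebra.norm ℤ D ≤ X ∧ Q D ∧ T D}.ncard : ℝ) /
      ({D : 𝓞 K | Algebra.norm ℤ D ≤ X ∧ Q' D}.ncard : ℝ)) atTop
        (𝓝 ((∑ p ∈ S, x p * (1 / 2 : ℝ) ^ p.2) / ∑ p ∈ S', (1 / 2 : ℝ) ^ p.2)) := by
  have e3 : ∀ X : ℕ, {D : 𝓞 K | Algebra.norm ℤ D ≤ X ∧ Q D ∧ T D}.ncard =
      {D : ZI | nrm D ≤ X ∧ InS S D ∧ T (e D)}.ncard := fun X =>
    img_ncard e he X (fun D => InS S D ∧ T (e D)) (fun D => Q D ∧ T D) fun D =>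
      and_congr (hQ D) Iff.rfl
  have e3' : ∀ X : ℕ, {D : 𝓞 K | Algebra.norm ℤ D ≤ X ∧ Q' D}.ncard =
      {D : ZI | nrm D ≤ X ∧ InS S' D}.ncard := fun X =>
    img_ncard e he X (InS S') Q' fun D => hQ' D
  simp_rw [e3, e3']
  refine mix sqfK S S' hS' (fun p hp => ?_) h4' P x (fun p hp => hP p (hS hp)) (fun D => T (e D))
    fun p hp => hT p (hS hp)
  exact s4_lt p (hS hp)

theorem hT_both (e : ZI ≃+* 𝓞 K) : ∀ p ∈ S4, ∀ Δ, PS Δ →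
    (Both (e (cl p.1 p.2 Δ)) ↔ cB p Δ) := fun _ hp _ hΔ =>
  and_congr (finT_cl e hp hΔ) (finT_neg e hp hΔ)

theorem hT_one (e : ZI ≃+* 𝓞 K) : ∀ p ∈ S4, ∀ Δ, PS Δ →
    (One (e (cl p.1 p.2 Δ)) ↔ cU p Δ) := fun _ hp _ hΔ =>
  not_congr (iff_congr (finT_cl e hp hΔ) (finT_neg e hp hΔ))

end

lemma sum_S1 (x : ℕ × ℕ → ℝ) : ∑ p ∈ S1, x p = x (1, 0) + x (3, 0) := by
  unfold S1
  rw [Finset.sum_pair (by decide)]

lemma sum_S5 (x : ℕ × ℕ → ℝ) : ∑ p ∈ S5, x p = x (0, 1) + (x (1, 1) + (x (2, 1) + x (3, 1))) := by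
  unfold S5
  rw [Finset.sum_insert (by decide), Finset.sum_insert (by decide), Finset.sum_pair (by decide)]

lemma sum_S4 (x : ℕ × ℕ → ℝ) : ∑ p ∈ S4, x p =
    x (1, 0) + (x (3, 0) + (x (0, 1) + (x (1, 1) + (x (2, 1) + x (3, 1))))) := by
  unfold S4
  rw [Finset.sum_insert (by decide), Finset.sum_insert (by decide), Finset.sum_insert (by decide),
    Finset.sum_insert (by decide), Finset.sum_pair (by decide)]

lemma sum_Ssq : ∑ p ∈ Ssq, (1 / 2 : ℝ) ^ p.2 = 6 := by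
  unfold Ssq
  rw [Finset.sum_product]
  simp [Finset.sum_range_succ]
  norm_num

/-- the equivalence for the odd elements -/
theorem odd_both (K : Type) [Field K] [NumberField K] [IsCyclotomicExtension {4} ℚ K]
    (D : 𝓞 K) (hD : Squarefree D ∧ OddI D) : FinT D ↔ FinT (-D) := by
  obtain ⟨e, he⟩ := Rng.exists_e K
  obtain ⟨D, rfl⟩ := e.surjective D
  obtain ⟨p, hp, Δ, hΔ, rfl⟩ := (oneK e D).1 hD
  exact odd_iff e hp hΔ

/-- **The joint law.** -/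
theorem joint (K : Type) [Field K] [NumberField K] [IsCyclotomicExtension {4} ℚ K] :
    Tendsto (fun X : ℕ =>
      ({D : 𝓞 K | Algebra.norm ℤ D ≤ X ∧ (Squarefree D ∧ OddI D) ∧ Both D}.ncard : ℝ) /
        ({D : 𝓞 K | Algebra.norm ℤ D ≤ X ∧ (Squarefree D ∧ OddI D)}.ncard : ℝ)) atTop
      (nhds cc2) ∧
    Tendsto (fun X : ℕ =>
      ({D : 𝓞 K | Algebra.norm ℤ D ≤ X ∧ Evn D ∧ Both D}.ncard : ℝ) /
        ({D : 𝓞 K | Algebra.norm ℤ D ≤ X ∧ Evn D}.ncard : ℝ)) atTop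
      (nhds (1 / 2 * cc2)) ∧
    Tendsto (fun X : ℕ =>
      ({D : 𝓞 K | Algebra.norm ℤ D ≤ X ∧ Evn D ∧ One D}.ncard : ℝ) /
        ({D : 𝓞 K | Algebra.norm ℤ D ≤ X ∧ Evn D}.ncard : ℝ)) atTop
      (nhds cc2) ∧
    Tendsto (fun X : ℕ =>
      ({D : 𝓞 K | Algebra.norm ℤ D ≤ X ∧ NotOne D ∧ Both D}.ncard : ℝ) /
        ({D : 𝓞 K | Algebra.norm ℤ D ≤ X ∧ NotOne D}.ncard : ℝ)) atTop
      (nhds (3 / 4 * cc2)) ∧
    Tendsto (fun X : ℕ =>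
      ({D : 𝓞 K | Algebra.norm ℤ D ≤ X ∧ NotOne D ∧ One D}.ncard : ℝ) /
        ({D : 𝓞 K | Algebra.norm ℤ D ≤ X ∧ NotOne D}.ncard : ℝ)) atTop
      (nhds (1 / 2 * cc2)) ∧
    Tendsto (fun X : ℕ =>
      ({D : 𝓞 K | Algebra.norm ℤ D ≤ X ∧ NotOne D ∧ Both D}.ncard : ℝ) /
        ({D : 𝓞 K | Algebra.norm ℤ D ≤ X ∧ Squarefree D}.ncard : ℝ)) atTop
      (nhds (1 / 2 * cc2)) ∧
    Tendsto (fun X : ℕ =>
      ({D : 𝓞 K | Algebra.norm ℤ D ≤ X ∧ NotOne D ∧ One D}.ncard : ℝ) /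
        ({D : 𝓞 K | Algebra.norm ℤ D ≤ X ∧ Squarefree D}.ncard : ℝ)) atTop
      (nhds (1 / 3 * cc2)) := by
  obtain ⟨e, he⟩ := Rng.exists_e K
  have lB := fun {S S' : Finset (ℕ × ℕ)} (hS : S ⊆ S4) (hS' : S'.Nonempty)
    (h4' : ∀ p ∈ S', p.1 < 4) (Q Q' : 𝓞 K → Prop) (hQ : ∀ D, Q (e D) ↔ InS S D)
    (hQ' : ∀ D, Q' (e D) ↔ InS S' D) =>
    lim_gen e he hS hS' h4' Q Q' hQ hQ' Both cB xB (hT_both e) fun p hp => den_cB hp
  have lU := fun {S S' : Finset (ℕ × ℕ)} (hS : S ⊆ S4) (hS' : S'.Nonempty)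
    (h4' : ∀ p ∈ S', p.1 < 4) (Q Q' : 𝓞 K → Prop) (hQ : ∀ D, Q (e D) ↔ InS S D)
    (hQ' : ∀ D, Q' (e D) ↔ InS S' D) =>
    lim_gen e he hS hS' h4' Q Q' hQ hQ' One cU xU (hT_one e) fun p hp => den_cU hp
  have hsq : ∀ D : ZI, Squarefree (e D) ↔ InS Ssq D := fun D => (sqf_e e D).trans inS_Ssq.symm
  have hx0 : ∀ a, xB (a, 0) = cc2 := fun a => if_neg (by norm_num)
  have hx1 : ∀ a, xB (a, 1) = cc2 / 2 := fun a => if_pos rfl
  have hy0 : ∀ a, xU (a, 0) = 0 := fun a => if_neg (by norm_num)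
  have hy1 : ∀ a, xU (a, 1) = cc2 := fun a => if_pos rfl
  have s4 : ∀ p ∈ S4, p.1 < 4 := by decide
  have s5 : ∀ p ∈ S5, p.1 < 4 := by decide
  have s1 : ∀ p ∈ S1, p.1 < 4 := by decide
  have ssq : ∀ p ∈ Ssq, p.1 < 4 := by decide
  refine ⟨?_, ?_, ?_, ?_, ?_, ?_, ?_⟩
  · have h := lB (S := S1) (S' := S1) (by decide) ⟨(1, 0), by decide⟩ s1
      (fun D => Squarefree D ∧ OddI D) (fun D => Squarefree D ∧ OddI D) (oneK e) (oneK e)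
    have e1 : (∑ p ∈ S1, xB p * (1 / 2 : ℝ) ^ p.2) / ∑ p ∈ S1, (1 / 2 : ℝ) ^ p.2 = cc2 := by
      rw [sum_S1 fun p => xB p * (1 / 2 : ℝ) ^ p.2, sum_S1 fun p => (1 / 2 : ℝ) ^ p.2]
      simp only [hx0]
      norm_num
      try ring
    rwa [e1] at h
  · have h := lB (S := S5) (S' := S5) (by decide) ⟨(0, 1), by decide⟩ s5 Evn Evn (evnK e) (evnK e)
    have e1 : (∑ p ∈ S5, xB p * (1 / 2 : ℝ) ^ p.2) / ∑ p ∈ S5, (1 / 2 : ℝ) ^ p.2 = 1 / 2 * cc2 := by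
      rw [sum_S5 fun p => xB p * (1 / 2 : ℝ) ^ p.2, sum_S5 fun p => (1 / 2 : ℝ) ^ p.2]
      simp only [hx1]
      norm_num
      try ring
    rwa [e1] at h
  · have h := lU (S := S5) (S' := S5) (by decide) ⟨(0, 1), by decide⟩ s5 Evn Evn (evnK e) (evnK e)
    have e1 : (∑ p ∈ S5, xU p * (1 / 2 : ℝ) ^ p.2) / ∑ p ∈ S5, (1 / 2 : ℝ) ^ p.2 = cc2 := by
      rw [sum_S5 fun p => xU p * (1 / 2 : ℝ) ^ p.2, sum_S5 fun p => (1 / 2 : ℝ) ^ p.2]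
      simp only [hy1]
      norm_num
      try ring
    rwa [e1] at h
  · have h := lB (S := S4) (S' := S4) (by decide) ⟨(1, 0), by decide⟩ s4 NotOne NotOne
      (notOneK e) (notOneK e)
    have e1 : (∑ p ∈ S4, xB p * (1 / 2 : ℝ) ^ p.2) / ∑ p ∈ S4, (1 / 2 : ℝ) ^ p.2 = 3 / 4 * cc2 := by
      rw [sum_S4 fun p => xB p * (1 / 2 : ℝ) ^ p.2, sum_S4 fun p => (1 / 2 : ℝ) ^ p.2]
      simp only [hx0, hx1]
      norm_num
      try ring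
    rwa [e1] at h
  · have h := lU (S := S4) (S' := S4) (by decide) ⟨(1, 0), by decide⟩ s4 NotOne NotOne
      (notOneK e) (notOneK e)
    have e1 : (∑ p ∈ S4, xU p * (1 / 2 : ℝ) ^ p.2) / ∑ p ∈ S4, (1 / 2 : ℝ) ^ p.2 = 1 / 2 * cc2 := by
      rw [sum_S4 fun p => xU p * (1 / 2 : ℝ) ^ p.2, sum_S4 fun p => (1 / 2 : ℝ) ^ p.2]
      simp only [hy0, hy1]
      norm_num
      try ring
    rwa [e1] at h
  · have h := lB (S := S4) (S' := Ssq) (by decide) ⟨(1, 0), by decide⟩ ssq NotOne Squarefree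
      (notOneK e) hsq
    have e1 : (∑ p ∈ S4, xB p * (1 / 2 : ℝ) ^ p.2) / ∑ p ∈ Ssq, (1 / 2 : ℝ) ^ p.2 =
        1 / 2 * cc2 := by
      rw [sum_Ssq, sum_S4 fun p => xB p * (1 / 2 : ℝ) ^ p.2]
      simp only [hx0, hx1]
      norm_num
      try ring
    rwa [e1] at h
  · have h := lU (S := S4) (S' := Ssq) (by decide) ⟨(1, 0), by decide⟩ ssq NotOne Squarefree
      (notOneK e) hsq
    have e1 : (∑ p ∈ S4, xU p * (1 / 2 : ℝ) ^ p.2) / ∑ p ∈ Ssq, (1 / 2 : ℝ) ^ p.2 =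
        1 / 3 * cc2 := by
      rw [sum_Ssq, sum_S4 fun p => xU p * (1 / 2 : ℝ) ^ p.2]
      simp only [hy0, hy1]
      norm_num
      try ring
    rwa [e1] at h

end Pool.Agent.D0H43.JQ
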