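import Pool.Agent.D0H10.Q5.Gen

/-!
# Project JQ: densities in unions of classes with different limits
-/

set_option autoImplicit false

open NumberField Filter
open scoped Topology

namespace Pool.Agent.D0H43.JQ

open H385 (ZI RQ im1 nrm)
open Pool.Agent.Y699 (SB mem_SB PS pi1 pi1_prime)
open Pool.Agent.D0H10.Q4
open Pool.Agent.D0H10.Q5 (Dn)

/-- the number of the elements of a class with the property, divided by `X` -/
theorem cls_lim2 {κ : ℝ} (h : Tendsto (fun X : ℕ => ((SB X).card : ℝ) / (X : ℝ)) atTop (𝓝 κ))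
    {P : ZI → Prop} {x : ℝ} (hP : Dn P x) (b : ℕ) [DecidablePred P] :
    Tendsto (fun X : ℕ => (((SB (X / 2 ^ b)).filter P).card : ℝ) / (X : ℝ)) atTop
      (𝓝 (x * (κ * (1 / 2 : ℝ) ^ b))) := by
  have h1 : Tendsto (fun X : ℕ => (((SB (X / 2 ^ b)).filter P).card : ℝ) /
      ((SB (X / 2 ^ b)).card : ℝ)) atTop (𝓝 x) := by
    have h2 := Tendsto.comp hP (div_atTop b)
    refine h2.congr fun X => ?_
    simp only [Function.comp]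
    congr 3
    ext z
    simp only [Finset.mem_filter]
  refine (h1.mul (cls_lim h b)).congr' ?_
  filter_upwards [(div_atTop b).eventually_ge_atTop 1] with X hX
  have h2 : ((SB (X / 2 ^ b)).card : ℝ) ≠ 0 := by
    have := SB_pos hX
    positivity
  field_simp

theorem num_lim {κ : ℝ} (h : Tendsto (fun X : ℕ => ((SB X).card : ℝ) / (X : ℝ)) atTop (𝓝 κ))
    (S : Finset (ℕ × ℕ)) (h4 : ∀ p ∈ S, p.1 < 4) (P : ℕ × ℕ → ZI → Prop) (x : ℕ × ℕ → ℝ)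
    (hden : ∀ p ∈ S, Dn (P p) (x p)) (T : ZI → Prop)
    (hT : ∀ p ∈ S, ∀ Δ, PS Δ → (T (cl p.1 p.2 Δ) ↔ P p Δ)) :
    Tendsto (fun X : ℕ => ({D : ZI | nrm D ≤ X ∧ InS S D ∧ T D}.ncard : ℝ) / (X : ℝ)) atTop
      (𝓝 (∑ p ∈ S, x p * (κ * (1 / 2 : ℝ) ^ p.2))) := by
  classical
  have e1 : ∀ X : ℕ, ({D : ZI | nrm D ≤ X ∧ InS S D ∧ T D}.ncard : ℝ) / (X : ℝ) =
      ∑ p ∈ S, (((SB (X / 2 ^ p.2)).filter (P p)).card : ℝ) / (X : ℝ) := by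
    intro X
    have h1 := count_cls S h4 T X
    have h2 : {D : ZI | nrm D ≤ X ∧ InS S D ∧ T D}.ncard =
        {D : ZI | nrm D ≤ X ∧ (∃ p ∈ S, ∃ Δ, PS Δ ∧ D = cl p.1 p.2 Δ) ∧ T D}.ncard := rfl
    rw [h2, h1, Nat.cast_sum, Finset.sum_div]
    refine Finset.sum_congr rfl fun p hp => ?_
    congr 3
    refine Finset.filter_congr fun Δ hΔ => ?_
    exact hT p hp Δ (mem_SB.1 hΔ).2
  simp_rw [e1]
  exact tendsto_finsetSum S fun p hp => cls_lim2 h (hden p hp) p.2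

/-- the proportion in a union of classes -/
theorem mix (hsq : S_SQF) (S S' : Finset (ℕ × ℕ)) (hS' : S'.Nonempty) (h4 : ∀ p ∈ S, p.1 < 4)
    (h4' : ∀ p ∈ S', p.1 < 4) (P : ℕ × ℕ → ZI → Prop) (x : ℕ × ℕ → ℝ)
    (hden : ∀ p ∈ S, Dn (P p) (x p)) (T : ZI → Prop)
    (hT : ∀ p ∈ S, ∀ Δ, PS Δ → (T (cl p.1 p.2 Δ) ↔ P p Δ)) :
    Tendsto (fun X : ℕ => ({D : ZI | nrm D ≤ X ∧ InS S D ∧ T D}.ncard : ℝ) /
      ({D : ZI | nrm D ≤ X ∧ InS S' D}.ncard : ℝ)) atTop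
        (𝓝 ((∑ p ∈ S, x p * (1 / 2 : ℝ) ^ p.2) / ∑ p ∈ S', (1 / 2 : ℝ) ^ p.2)) := by
  obtain ⟨κ, hκ, h⟩ := hsq
  have h1 := num_lim h S h4 P x hden T hT
  have h2 := cnt_lim h S' h4'
  have hpos : 0 < ∑ p ∈ S', (1 / 2 : ℝ) ^ p.2 := Finset.sum_pos (fun _ _ => by positivity) hS'
  have e4 : ∑ p ∈ S', κ * (1 / 2 : ℝ) ^ p.2 = κ * ∑ p ∈ S', (1 / 2 : ℝ) ^ p.2 := by
    rw [Finset.mul_sum]
  have e5 : ∑ p ∈ S, x p * (κ * (1 / 2 : ℝ) ^ p.2) = κ * ∑ p ∈ S, x p * (1 / 2 : ℝ) ^ p.2 := by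
    rw [Finset.mul_sum]
    exact Finset.sum_congr rfl fun p _ => by ring
  rw [e4] at h2
  rw [e5] at h1
  have h5 := h1.div h2 (by positivity)
  have e6 : κ * (∑ p ∈ S, x p * (1 / 2 : ℝ) ^ p.2) / (κ * ∑ p ∈ S', (1 / 2 : ℝ) ^ p.2) =
      (∑ p ∈ S, x p * (1 / 2 : ℝ) ^ p.2) / ∑ p ∈ S', (1 / 2 : ℝ) ^ p.2 := by
    field_simp
  rw [e6] at h5
  refine h5.congr' ?_
  filter_upwards [eventually_gt_atTop 0] with X hX0
  have h7 : (X : ℝ) ≠ 0 := by positivity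
  simp only [Pi.div_apply]
  rcases eq_or_ne ({D : ZI | nrm D ≤ X ∧ InS S' D}.ncard : ℝ) 0 with h0 | h0
  · rw [h0, zero_div, div_zero, div_zero]
  · field_simp

end Pool.Agent.D0H43.JQ
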