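import Pool.Agent.D0H43.Q4.AllR
import Pool.Agent.D0H43.JQ.Mix

/-!
# Project JQ: the pencil of the two bordered matrices of the twists by `D` and `- D`
-/

set_option autoImplicit false
set_option linter.unusedSectionVars false

open Filter
open scoped Topology Classical

namespace Pool.Agent.D0H43.JQ

open Finset
open H385 (ZI RQ im1 nrm)
open Pool.Agent.Y699 hiding XX kk CC
open Pool.Agent.D0H10.Q4 (MQ cc2)
open Pool.Agent.D0H10.Q5 (Dn)
open Pool.Agent.D0H43.Q4
open Pool.Agent.D0H45.QK (den gd_iff_det Psi tq LT clT ClD lowT)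
open Pool.Agent.D0H45.QE (psis8)

section det

variable {ι : Type} [DecidableEq ι]

/-- the bordered matrix with another corner -/
theorem det_corner (h t : ι → ZMod 2) (c : ZMod 2) (A : ι → ι → ZMod 2) (V : Finset ι) :
    (MB h t (c + 1) A V).det = (MB h t c A V).det + (MQ h A V).det := by
  have e1 : MB h t (c + 1) A V =
      (MB h t c A V).updateRow none ((MB h t c A V) none + Pi.single none 1) := by
    ext a b
    rcases a with _ | a
    · rw [Matrix.updateRow_self]
      rcases b with _ | b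
      · simp [MB]
      · simp [MB]
    · rw [Matrix.updateRow_ne (by simp)]
      rcases b with _ | b <;> rfl
  rw [e1, Matrix.det_updateRow_add, Matrix.updateRow_eq_self]
  congr 1
  set M := (MB h t c A V).updateRow none (Pi.single none 1) with hM
  have e2 : Matrix.reindex (Equiv.optionEquivSumPUnit.{0} V) (Equiv.optionEquivSumPUnit.{0} V) M =
      Matrix.fromBlocks (MQ h A V) (Matrix.of fun i (_ : PUnit.{1}) => t i) 0 1 := by
    ext a b
    rcases a with a | a <;> rcases b with b | b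
    · show (MB h t c A V).updateRow none (Pi.single none 1) (some a) (some b) = _
      rw [Matrix.updateRow_ne (by simp)]
      rfl
    · show (MB h t c A V).updateRow none (Pi.single none 1) (some a) none = _
      rw [Matrix.updateRow_ne (by simp)]
      rfl
    · show (MB h t c A V).updateRow none (Pi.single none 1) none (some b) = _
      rw [Matrix.updateRow_self]
      rfl
    · show (MB h t c A V).updateRow none (Pi.single none 1) none none = _
      rw [Matrix.updateRow_self, Pi.single_eq_same]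
      rfl
  rw [← Matrix.det_reindex_self (Equiv.optionEquivSumPUnit.{0} V) M, e2,
    Matrix.det_fromBlocks_zero₂₁, Matrix.det_one, mul_one]

end det

lemma cst_add (a : ℕ) : cst (a + 2) = cst a + 1 := by
  unfold cst
  have h : ∀ n : ℕ, n % 4 = 0 ∨ n % 4 = 1 ∨ n % 4 = 2 ∨ n % 4 = 3 := by omega
  rcases h a with h1 | h1 | h1 | h1
  · rw [if_neg (by omega), if_pos (by omega)]; decide
  · rw [if_pos (by omega), if_neg (by omega)]; decide
  · rw [if_pos (by omega), if_neg (by omega)]; decide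
  · rw [if_neg (by omega), if_pos (by omega)]; decide

lemma hO_add (a : ℕ) {ι : Type} (pr : ι → ZI) : hO (a + 2) pr = hO a pr := by
  funext j
  unfold hO
  have h2 : ((a + 2 : ℕ) : ZMod 2) = (a : ZMod 2) := by
    push_cast
    have : (2 : ZMod 2) = 0 := by decide
    rw [this, add_zero]
  rw [h2]

/-- the determinant of the principal minor -/
noncomputable def dM (a : ℕ) (Δ : ZI) : ZMod 2 := (MQ (hO a (fam Δ)) (em (fam Δ)) univ).det

/-- **the pencil** -/
theorem pencil (a : ℕ) (Δ : ZI) : dO (a + 2) Δ = dO a Δ + dM a Δ := by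
  unfold dO dM
  rw [hO_add, cst_add, ← add_assoc, det_corner]

lemma fi {β : Type} (s : Finset β) (p : β → Prop) (h1 h2 : DecidablePred p) :
    @Finset.filter β p h1 s = @Finset.filter β p h2 s := by
  ext x
  simp only [Finset.mem_filter]

lemma dn_iff (P : ZI → Prop) (c : ℝ) (inst : DecidablePred P) : Dn P c ↔
    Tendsto (fun X : ℕ => ((@Finset.filter _ P inst (SB X)).card : ℝ) / ((SB X).card : ℝ)) atTop
      (𝓝 c) := by
  unfold Dn
  refine iff_of_eq ?_
  congr 1
  funext X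
  rw [fi _ P _ inst]

/-- the number of the elements with the property -/
noncomputable def ct (P : ZI → Prop) (X : ℕ) : ℕ := ((SB X).filter P).card

lemma dn_ct (P : ZI → Prop) (c : ℝ) : Dn P c ↔
    Tendsto (fun X : ℕ => (ct P X : ℝ) / ((SB X).card : ℝ)) atTop (𝓝 c) := Iff.rfl

lemma ct_congr {P Q : ZI → Prop} (h : ∀ Δ, PS Δ → (P Δ ↔ Q Δ)) (X : ℕ) : ct P X = ct Q X := by
  unfold ct
  congr 1
  exact filter_congr fun Δ hΔ => h Δ (mem_SB.1 hΔ).2

lemma Dn.congr' {P Q : ZI → Prop} {c : ℝ} (h : ∀ Δ, PS Δ → (P Δ ↔ Q Δ)) (hP : Dn P c) : Dn Q c := by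
  rw [dn_ct] at hP ⊢
  simp_rw [ct_congr h] at hP
  exact hP

/-- the density for the principal minor -/
theorem den_dM (a : ℕ) : Dn (fun Δ => dM a Δ = 1) cc2 := by
  obtain ⟨q, hq⟩ := psis8 a
  have h0 := den hq LT lowT
  have h2 : ∀ X, (SB X).filter (ClD LT) = SB X := fun X => filter_true_of_mem fun Δ _ => clT Δ
  simp_rw [h2] at h0
  have h3 : Dn (fun Δ => ClD LT Δ ∧
      Pool.Agent.D0H45.QK.Gd Pool.Agent.D0H45.QK.nq
        (tq fun b => Pool.Agent.D0H45.QK.ψ8 b * Pool.Agent.D0H45.QE.ψs a b) (PD Δ)) cc2 :=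
    (dn_iff _ _ _).2 h0
  refine Dn.congr' (fun Δ hPS => ?_) h3
  have hPF := fam_PF hPS.ne
  have e1 : (fun π : {π : ZI // π ∈ PD Δ} =>
      tq (fun b => Pool.Agent.D0H45.QK.ψ8 b * Pool.Agent.D0H45.QE.ψs a b) (fam Δ π)) =
      hO a (fam Δ) := by
    funext π
    obtain ⟨q', hq'⟩ := Pool.Agent.D0H45.QE.psis a
    rw [← Pool.Agent.D0H45.QE.tq_mul Pool.Agent.D0H45.QK.psi8 hq' (hPF.pp π).prm,
      Pool.Agent.D0H45.QE.tq_s a (hPF.pp π).prm, Pool.Agent.D0H45.QE.tq_8]
    rfl
  rw [gd_iff_det hPS.ne, e1]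
  have key : ∀ a : ZMod 2, a ≠ 0 ↔ a = 1 := by decide
  unfold dM
  rw [key]
  exact and_iff_right (clT Δ)

/-- the density for one bordered matrix -/
theorem den_dO (a : ℕ) : Dn (fun Δ => dO a Δ = 1) cc2 := (dn_iff _ _ _).2 (Pool.Agent.D0H45.QE.deno a)

/-- exactly one of the two bordered matrices is nonsingular -/
theorem den_one (a : ℕ) : Dn (fun Δ => ¬ (dO a Δ = 1 ↔ dO (a + 2) Δ = 1)) cc2 := by
  refine Dn.congr' (fun Δ _ => ?_) (den_dM a)
  rw [pencil]
  have key : ∀ x y : ZMod 2, y = 1 ↔ ¬ (x = 1 ↔ x + y = 1) := by decide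
  exact key _ _

lemma ct_pair (P Q : ZI → Prop) (X : ℕ) : ct P X + ct Q X =
    ct (fun Δ => ¬ (P Δ ↔ Q Δ)) X + 2 * ct (fun Δ => P Δ ∧ Q Δ) X := by
  unfold ct
  simp only [card_filter]
  rw [mul_sum, ← sum_add_distrib, ← sum_add_distrib]
  refine sum_congr rfl fun Δ _ => ?_
  by_cases h1 : P Δ <;> by_cases h2 : Q Δ <;> simp [h1, h2]

/-- the density of the intersection -/
theorem dn_both {P Q : ZI → Prop} {a b c : ℝ} (hP : Dn P a) (hQ : Dn Q b)
    (h : Dn (fun Δ => ¬ (P Δ ↔ Q Δ)) c) : Dn (fun Δ => P Δ ∧ Q Δ) ((a + b - c) / 2) := by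
  rw [dn_ct] at *
  refine Tendsto.congr (fun X => ?_) (((hP.add hQ).sub h).div_const 2)
  have hc : (ct P X : ℝ) + (ct Q X : ℝ) = (ct (fun Δ => ¬ (P Δ ↔ Q Δ)) X : ℝ) +
      2 * (ct (fun Δ => P Δ ∧ Q Δ) X : ℝ) := by exact_mod_cast ct_pair P Q X
  have e : (ct (fun Δ => P Δ ∧ Q Δ) X : ℝ) =
      ((ct P X : ℝ) + (ct Q X : ℝ) - (ct (fun Δ => ¬ (P Δ ↔ Q Δ)) X : ℝ)) / 2 := by linarith
  rw [e]
  ring

/-- both bordered matrices are nonsingular -/
theorem den_both (a : ℕ) : Dn (fun Δ => dO a Δ = 1 ∧ dO (a + 2) Δ = 1) (cc2 / 2) := by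
  have h := dn_both (den_dO a) (den_dO (a + 2)) (den_one a)
  have e : (cc2 + cc2 - cc2) / 2 = cc2 / 2 := by ring
  rwa [e] at h

end Pool.Agent.D0H43.JQ
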