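import Pool.Agent.D0H43.JQ.SelT

/-!
# The `2^∞`-Selmer groups over the extensions

`sel_killed`: the port of `Pool.Agent.D0H69.JTL.sel_killed` (helper69, after helper50) to `y² = x³ + D x`.
-/

set_option autoImplicit false
set_option linter.unusedVariables false
set_option linter.unusedSectionVars false

open scoped Classical

namespace Pool.Agent.D0H43.JQ

open WeierstrassCurve NumberField
open Pool.Agent.TH841.SH.D (Pt act Gal Coch IsCoc IsCob cob)
open Pool.Agent.TH841.NF.D (IsShaCoc shaCoc Sha)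
open Pool.Agent.D0H10.Q5.Inf
open Pool.Agent.D0H10.Q4 (Cv FinT)

/-- the Selmer group is killed by `n` if `Ш[2^∞]` is and the group of the points is finite -/
theorem sel_killed {F : Type} [Field F] [NumberField F] {D : F} (hD : D ≠ 0)
    (h1 : Finite (Cv D).toAffine.Point) {n : ℕ}
    (h2' : ∀ (k : ℕ) (x : Sha (Cv D)), 2 ^ k • x = 0 → n • x = 0) :
    ∀ x : SelInf D, n • x = 0 := by
  intro x
  have h2 : ∀ (k : ℕ) (x : Sha (E1 D)), 2 ^ k • x = 0 → n • x = 0 := h2'
  have hfinK : Finite (Pt (E1 D) F) := (fin_iff D).2 h1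
  have hfix : Finite (Pool.Agent.D0H50.BK.Fix fun σ : Gal F => act (E1 D) σ.toAlgHom) := by
    choose! g hg using fun (P : Pt (E1 D) (AlgebraicClosure F))
      (h : ∀ σ : Gal F, act (E1 D) σ.toAlgHom P = P) => exists_inc hD h
    refine Finite.of_injective (fun P : (Pool.Agent.D0H50.BK.Fix fun σ : Gal F =>
      act (E1 D) σ.toAlgHom) => g P.1) fun P Q h => ?_
    apply Subtype.ext
    rw [← hg P.1 P.2, ← hg Q.1 Q.2]
    exact congrArg _ h
  obtain ⟨f, rfl⟩ : ∃ f : selCoc D, cls f = x := QuotientAddGroup.mk_surjective x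
  have hcls : n • cls f = cls (n • f) := rfl
  rw [hcls, cls_eq_zero]
  have hN : ∃ N : ℕ, ∀ σ, 2 ^ N • f.1 σ = 0 := by
    have hfin : (Set.range f.1).Finite := f.2.1.1.1.range_finite
    choose m hn using f.2.2
    have hn' : ∀ R ∈ Set.range f.1, ∃ m : ℕ, 2 ^ m • R = 0 := by
      rintro _ ⟨σ, rfl⟩
      exact ⟨_, hn σ⟩
    choose! m hm using hn'
    refine ⟨hfin.toFinset.sup m, fun σ => ?_⟩
    have h1 : m (f.1 σ) ≤ hfin.toFinset.sup m :=
      Finset.le_sup (hfin.mem_toFinset.2 (Set.mem_range_self σ))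
    obtain ⟨c, hc⟩ := Nat.exists_eq_add_of_le h1
    rw [hc, add_comm, pow_add, mul_smul, hm _ (Set.mem_range_self σ), smul_zero]
  obtain ⟨N, hN⟩ := hN
  have hsh : IsShaCoc (E1 D) f.1 := f.2.1
  have hcob : IsCob (E1 D) (n • f.1) := by
    obtain ⟨g, hg⟩ : ∃ g : shaCoc (E1 D), g = ⟨f.1, hsh⟩ := ⟨_, rfl⟩
    let y : Sha (E1 D) := QuotientAddGroup.mk g
    have hy : 2 ^ N • y = 0 := by
      have h3 : 2 ^ N • g = 0 := by
        rw [hg]
        apply Subtype.ext
        funext σ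
        exact hN σ
      have h4 : 2 ^ N • y = (QuotientAddGroup.mk (2 ^ N • g) : Sha (E1 D)) := rfl
      refine h4.trans ?_
      rw [h3]
      rfl
    have h3 : (QuotientAddGroup.mk (n • g) : Sha (E1 D)) = 0 := h2 N y hy
    have h4 := (QuotientAddGroup.eq_zero_iff (N := (cob (E1 D)).addSubgroupOf (shaCoc (E1 D)))
      (n • g)).1 h3
    have h5 := AddSubgroup.mem_addSubgroupOf.1 h4
    rw [hg] at h5
    exact h5
  have hN' : ∀ σ, 2 ^ N • (n • f.1) σ = 0 := fun σ => by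
    show 2 ^ N • (n • f.1 σ) = 0
    rw [smul_comm, hN σ, smul_zero]
  obtain ⟨P, ⟨m, hm⟩, hP⟩ := Pool.Agent.D0H50.BK.p_prim
    (fun σ : Gal F => act (E1 D) σ.toAlgHom) Nat.prime_two (n • f.1) N hN' hcob
  exact ⟨P, ⟨m, hm⟩, hP⟩

end Pool.Agent.D0H43.JQ
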